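import Pool.Agent.Helper14.W5.StD

/-!
# Project W5 (MP_1d384c_nt), module Ld: leading forms of `T_2² + 1` and `T_3² - 2 T_2 T_3 - 2`
-/

set_option autoImplicit false

namespace Pool.Agent.Helper99.W5

open Pool.Agent.Helper14.W5

section lists

variable {q q' : ℕ}

theorem ld_nil : (opL [] : Module.End (ZMod 5) (Fn5 q q')) = 0 := by simp [opL]

theorem ld_cons (t : Tm) (L : List Tm) : (opL (t :: L) : Module.End (ZMod 5) (Fn5 q q')) =
    ((t.1 : ℤ) : ZMod 5) • op5 t.2.1 t.2.2.1 t.2.2.2.1 t.2.2.2.2 + opL L := by simp [opL]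

theorem ld_app (L L' : List Tm) :
    (opL (L ++ L') : Module.End (ZMod 5) (Fn5 q q')) = opL L + opL L' := by simp [opL]

theorem ld_sub_smul (a b : ZMod 5) (X : Module.End (ZMod 5) (Fn5 q q')) :
    (a - b) • X = a • X - b • X := by
  refine LinearMap.ext fun F => ?_
  funext x y
  change (a - b) * X F x y = a * X F x y - b * X F x y
  ring

theorem ld_mul_smul (a b : ZMod 5) (X : Module.End (ZMod 5) (Fn5 q q')) :
    (a * b) • X = a • b • X := by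
  refine LinearMap.ext fun F => ?_
  funext x y
  change (a * b) * X F x y = a * (b * X F x y)
  ring

theorem ld_add_smul (a b : ZMod 5) (X : Module.End (ZMod 5) (Fn5 q q')) :
    (a + b) • X = a • X + b • X := by
  refine LinearMap.ext fun F => ?_
  funext x y
  change (a + b) * X F x y = a * X F x y + b * X F x y
  ring

theorem ld_smul_add (a : ZMod 5) (X Y : Module.End (ZMod 5) (Fn5 q q')) :
    a • (X + Y) = a • X + a • Y := by
  refine LinearMap.ext fun F => ?_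
  funext x y
  change a * (X F x y + Y F x y) = a * X F x y + a * Y F x y
  ring

theorem ld_scl (n : ℤ) (L : List Tm) :
    (opL (sclL n L) : Module.End (ZMod 5) (Fn5 q q')) = ((n : ℤ) : ZMod 5) • opL L := by
  induction L with
  | nil => simp [sclL, ld_nil]
  | cons t L ih =>
    have h : sclL n (t :: L) = (n * t.1, t.2) :: sclL n L := rfl
    rw [h, ld_cons, ld_cons, ih, ld_smul_add]
    push_cast
    rw [ld_mul_smul]

theorem ld_sum_sub {ι : Type} (S : Finset ι) (a b : ι → ZMod 5)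
    (X : ι → Module.End (ZMod 5) (Fn5 q q')) :
    ∑ t ∈ S, (a t - b t) • X t = ∑ t ∈ S, a t • X t - ∑ t ∈ S, b t • X t := by
  rw [← Finset.sum_sub_distrib]
  exact Finset.sum_congr rfl fun t _ => ld_sub_smul _ _ _

end lists

/-! ### Entries prime to five -/

theorem ld_gd_mul {t t' : Tm} (h : Gd t) (h' : Gd t') : Gd (mulT t t') := by
  obtain ⟨h1, h2⟩ := h
  obtain ⟨h3, h4⟩ := h'
  have hp : Prime (5 : ℤ) := Int.prime_iff_natAbs_prime.2 (by norm_num)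
  unfold Gd mulT
  simp only
  constructor
  · intro h
    have h5 : (5 : ℤ) ∣ t.2.1 * t'.2.1 := by
      have := Int.dvd_of_emod_eq_zero h
      have e : t.2.1 * t'.2.1 = (t.2.1 * t'.2.1 + 5 * t.2.2.1 * t'.2.2.2.1) -
        5 * (t.2.2.1 * t'.2.2.2.1) := by ring
      rw [e]
      exact dvd_sub this (dvd_mul_right _ _)
    rcases hp.dvd_or_dvd h5 with h6 | h6
    · exact h1 (Int.emod_eq_zero_of_dvd h6)
    · exact h3 (Int.emod_eq_zero_of_dvd h6)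
  · intro h
    have h5 : (5 : ℤ) ∣ t.2.2.2.2 * t'.2.2.2.2 := by
      have := Int.dvd_of_emod_eq_zero h
      have e : t.2.2.2.2 * t'.2.2.2.2 = (5 * t.2.2.2.1 * t'.2.2.1 + t.2.2.2.2 * t'.2.2.2.2) -
        5 * (t.2.2.2.1 * t'.2.2.1) := by ring
      rw [e]
      exact dvd_sub this (dvd_mul_right _ _)
    rcases hp.dvd_or_dvd h5 with h6 | h6
    · exact h2 (Int.emod_eq_zero_of_dvd h6)
    · exact h4 (Int.emod_eq_zero_of_dvd h6)

theorem ld_gd_mulL {L L' : List Tm} (h : ∀ t ∈ L, Gd t) (h' : ∀ t ∈ L', Gd t) :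
    ∀ t ∈ mulL L L', Gd t := by
  intro t ht
  unfold mulL at ht
  rw [List.mem_flatMap] at ht
  obtain ⟨a, ha, hb⟩ := ht
  rw [List.mem_map] at hb
  obtain ⟨b, hb, rfl⟩ := hb
  exact ld_gd_mul (h a ha) (h' b hb)

theorem ld_gd_app {L L' : List Tm} (h : ∀ t ∈ L, Gd t) (h' : ∀ t ∈ L', Gd t) :
    ∀ t ∈ L ++ L', Gd t := by
  intro t ht
  rcases List.mem_append.1 ht with h1 | h1
  · exact h t h1
  · exact h' t h1

theorem ld_gd_scl {L : List Tm} (n : ℤ) (h : ∀ t ∈ L, Gd t) : ∀ t ∈ sclL n L, Gd t := by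
  intro t ht
  unfold sclL at ht
  rw [List.mem_map] at ht
  obtain ⟨a, ha, rfl⟩ := ht
  exact h a ha

theorem ld_gd_id (c : ℤ) (i f : Fin 2) : ∀ t ∈ idL c i f, Gd t := by
  intro t ht
  unfold idL at ht
  split_ifs at ht
  · rw [List.mem_singleton] at ht
    subst ht
    unfold Gd
    simp
  · simp at ht

theorem ld_gd_mm {A B : Fin 2 → Fin 2 → List Tm} (hA : ∀ i f, ∀ t ∈ A i f, Gd t)
    (hB : ∀ i f, ∀ t ∈ B i f, Gd t) (i f : Fin 2) : ∀ t ∈ mmL A B i f, Gd t :=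
  ld_gd_app (ld_gd_mulL (hA i 0) (hB 0 f)) (ld_gd_mulL (hA i 1) (hB 1 f))

section ops

variable {r s : ℕ}

theorem ld_op_mul (hTrm : S5Trm) (a b c d a' b' c' d' : ℤ) (ha : ¬ 5 ∣ a) (hd : ¬ 5 ∣ d)
    (ha' : ¬ 5 ∣ a') (hd' : ¬ 5 ∣ d') :
    (op5 a b c d * op5 a' b' c' d' : Module.End (ZMod 5) (Fn5 (5 ^ r) (5 ^ s))) =
      op5 (a * a' + 5 * b * c') (a * b' + b * d') (c * a' + d * c') (5 * c * b' + d * d') := by
  refine LinearMap.ext fun F => ?_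
  exact (hTrm (ZMod 5) r s F).1 a b c d a' b' c' d' ha hd ha' hd'

theorem ld_nd {a : ℤ} (h : a % 5 ≠ 0) : ¬ (5 : ℤ) ∣ a := fun h' => h (Int.emod_eq_zero_of_dvd h')

theorem ld_map (hTrm : S5Trm) (t : Tm) (ht : Gd t) (L : List Tm) (hL : ∀ t ∈ L, Gd t) :
    (opL (L.map fun t' => mulT t t') : Module.End (ZMod 5) (Fn5 (5 ^ r) (5 ^ s))) =
      (((t.1 : ℤ) : ZMod 5) • op5 t.2.1 t.2.2.1 t.2.2.2.1 t.2.2.2.2) * opL L := by
  induction L with
  | nil => simp [ld_nil]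
  | cons t' L ih =>
    have h1 := hL t' List.mem_cons_self
    rw [List.map_cons, ld_cons, ld_cons, ih fun x hx => hL x (List.mem_cons_of_mem _ hx), mul_add]
    congr 1
    rw [smul_mul_smul_comm, ld_op_mul hTrm _ _ _ _ _ _ _ _ (ld_nd ht.1) (ld_nd ht.2) (ld_nd h1.1)
      (ld_nd h1.2)]
    unfold mulT
    push_cast
    rfl

theorem ld_mulL (hTrm : S5Trm) (L L' : List Tm) (hL : ∀ t ∈ L, Gd t) (hL' : ∀ t ∈ L', Gd t) :
    (opL (mulL L L') : Module.End (ZMod 5) (Fn5 (5 ^ r) (5 ^ s))) = opL L * opL L' := by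
  induction L with
  | nil => simp [mulL, ld_nil]
  | cons t L ih =>
    have h : mulL (t :: L) L' = (L'.map fun t' => mulT t t') ++ mulL L L' := by
      unfold mulL
      rw [List.flatMap_cons]
    rw [h, ld_app, ld_map hTrm t (hL t List.mem_cons_self) L' hL', ld_cons, add_mul,
      ih fun x hx => hL x (List.mem_cons_of_mem _ hx)]

theorem ld_rel (hTrm : S5Trm) (F : Fin 2 → Fn5 (5 ^ r) (5 ^ s)) (h : Rel5 F) (ρ : Fin 2) :
    ∑ f : Fin 2, opL (relL ρ f) (F f) = 0 := by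
  have h0 : ∀ G : Fn5 (5 ^ r) (5 ^ s), op5 1 0 0 1 G = G := fun G => (hTrm (ZMod 5) r s G).2.1
  rw [Fin.sum_univ_two]
  fin_cases ρ
  · simp only [relL, ld_cons, ld_nil, LinearMap.add_apply, LinearMap.smul_apply,
      LinearMap.zero_apply, h0]
    funext x y
    have h1 := h.1 x y
    simp only [Pi.add_apply, Pi.smul_apply, smul_eq_mul, Pi.zero_apply, add_zero, zero_add]
    push_cast
    change 1 * F 1 x y + 1 * tr5 2 (-1) 1 (-2) (F 1) x y = 0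
    linear_combination h1
  · simp only [relL, ld_cons, ld_nil, LinearMap.add_apply, LinearMap.smul_apply,
      LinearMap.zero_apply, h0]
    funext x y
    have h1 := h.2 x y
    simp only [Pi.add_apply, Pi.smul_apply, smul_eq_mul, Pi.zero_apply, add_zero]
    push_cast
    change 1 * F 0 x y + (-1 * tr5 1 1 0 1 (F 0) x y + (1 * tr5 3 (-2) 1 (-3) (F 0) x y +
      -1 * tr5 3 1 1 2 (F 0) x y)) + (-1 * F 1 x y + -1 * tr5 3 (-2) 1 (-3) (F 1) x y) = 0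
    linear_combination h1

/-- A multiple of a relation vanishes. -/
theorem ld_mulrel (hTrm : S5Trm) (F : Fin 2 → Fn5 (5 ^ r) (5 ^ s)) (h : Rel5 F) (ρ : Fin 2)
    (U : List Tm) (hU : ∀ t ∈ U, Gd t) (hR : ∀ f, ∀ t ∈ relL ρ f, Gd t) :
    ∑ f : Fin 2, opL (sclL (-1) (mulL U (relL ρ f))) (F f) = 0 := by
  have h1 : ∀ f : Fin 2, opL (sclL (-1) (mulL U (relL ρ f))) (F f) =
      ((-1 : ℤ) : ZMod 5) • (opL U) (opL (relL ρ f) (F f)) := by
    intro f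
    rw [ld_scl, ld_mulL hTrm U (relL ρ f) hU (hR f)]
    rfl
  rw [Finset.sum_congr rfl fun f _ => h1 f, ← Finset.smul_sum, ← map_sum, ld_rel hTrm F h, map_zero,
    smul_zero]

/-! ### Lowering -/

theorem ld_lw_zero (k : ℤ) : Lw (0 : Module.End (ZMod 5) (Fn5 (5 ^ r) (5 ^ s))) k := by
  intro d F _
  rw [LinearMap.zero_apply]
  exact Submodule.zero_mem _

theorem ld_lw_pow (hLow0 : S5Low0) (O : Module.End (ZMod 5) (Fn5 (5 ^ r) (5 ^ s))) (k : ℕ)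
    (h : Lw O k) (n : ℕ) : Lw (O ^ n) ((k * n : ℕ) : ℤ) := by
  obtain ⟨l1, l2, l3, l4, l5, l6, l7, l8, _⟩ := hLow0 r s
  induction n with
  | zero => simpa using l6
  | succ n ih =>
    rw [pow_succ]
    have := l1 _ _ _ _ ih h
    have e : ((k * n : ℕ) : ℤ) + k = ((k * (n + 1) : ℕ) : ℤ) := by push_cast; ring
    rw [e] at this
    exact this

theorem ld_lw_sum (hLow0 : S5Low0) {ι : Type} (S : Finset ι)
    (O : ι → Module.End (ZMod 5) (Fn5 (5 ^ r) (5 ^ s))) (k : ℤ) (h : ∀ i ∈ S, Lw (O i) k) :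
    Lw (∑ i ∈ S, O i) k := by
  classical
  obtain ⟨l1, l2, _⟩ := hLow0 r s
  induction S using Finset.induction_on with
  | empty => simpa using ld_lw_zero k
  | insert a S ha ih =>
    rw [Finset.sum_insert ha]
    exact l2 _ _ _ (h a (Finset.mem_insert_self _ _)) (ih fun i hi => h i (Finset.mem_insert_of_mem hi))

/-- the monomials -/
def ldMon (w : Fin 4) (t : ℕ × ℕ × ℕ) : Module.End (ZMod 5) (Fn5 (5 ^ r) (5 ^ s)) :=
  oW w * (oB - 1) ^ t.1 * (oD - 1) ^ t.2.1 * (oA - 1) ^ t.2.2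

theorem ld_lw_mon (hLow0 : S5Low0) (hNfa : S5Nfa) (w : Fin 4) (t : ℕ × ℕ × ℕ) :
    Lw (ldMon w t : Module.End (ZMod 5) (Fn5 (5 ^ r) (5 ^ s))) ((t.1 + 4 * t.2.1 + t.2.2 : ℕ) : ℤ) := by
  obtain ⟨l1, l2, l3, l4, l5, l6, l7, l8, _⟩ := hLow0 r s
  obtain ⟨n1, n2, n3, n4, n5, n6, n7, n8⟩ := hNfa r s
  have h0 := ld_lw_pow hLow0 (oB - 1 : Module.End (ZMod 5) (Fn5 (5 ^ r) (5 ^ s))) 1
    (by exact_mod_cast n8) t.1
  have h1 := ld_lw_pow hLow0 (oD - 1 : Module.End (ZMod 5) (Fn5 (5 ^ r) (5 ^ s))) 4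
    (by exact_mod_cast n4) t.2.1
  have h2 := ld_lw_pow hLow0 (oA - 1 : Module.End (ZMod 5) (Fn5 (5 ^ r) (5 ^ s))) 1
    (by exact_mod_cast n7) t.2.2
  have h := l1 _ _ _ _ (l1 _ _ _ _ (l1 _ _ _ _ (n1 w) h0) h1) h2
  have e : (0 : ℤ) + ((1 * t.1 : ℕ) : ℤ) + ((4 * t.2.1 : ℕ) : ℤ) + ((1 * t.2.2 : ℕ) : ℤ)
      = ((t.1 + 4 * t.2.1 + t.2.2 : ℕ) : ℤ) := by push_cast; ring
  rw [e] at h
  exact h

/-- the expansion with prescribed coefficients -/
theorem ld_key (hLow0 : S5Low0) (hNfa : S5Nfa) (hExp : S5Exp) (L : List Tm)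
    (hL : ∀ t ∈ L, Gd t) (k : ℕ) (hk : k ≤ 7) (c : Fin 4 → ℕ × ℕ × ℕ → ZMod 5)
    (hc : ∀ w, ∀ t ∈ M7, t.1 + 4 * t.2.1 + t.2.2 < k → ((cS L w t.1 t.2.1 t.2.2 : ℤ) : ZMod 5) = c w t) :
    Lw ((opL L : Module.End (ZMod 5) (Fn5 (5 ^ r) (5 ^ s))) - ∑ w, ∑ t ∈ M7, c w t • ldMon w t) k := by
  obtain ⟨l1, l2, l3, l4, _⟩ := hLow0 r s
  have h0 : Lw ((opL L : Module.End (ZMod 5) (Fn5 (5 ^ r) (5 ^ s))) - ∑ w, ∑ t ∈ M7,
      ((cS L w t.1 t.2.1 t.2.2 : ℤ) : ZMod 5) •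
      (ldMon w t : Module.End (ZMod 5) (Fn5 (5 ^ r) (5 ^ s)))) 7 := by
    have := hExp r s L hL
    unfold ldMon
    convert this using 2
  have h1 := l4 _ _ (k : ℤ) (by exact_mod_cast hk) h0
  have h2 : Lw (∑ w, ∑ t ∈ M7, (((cS L w t.1 t.2.1 t.2.2 : ℤ) : ZMod 5) - c w t) •
      (ldMon w t : Module.End (ZMod 5) (Fn5 (5 ^ r) (5 ^ s)))) k := by
    refine ld_lw_sum hLow0 _ _ _ fun w _ => ld_lw_sum hLow0 _ _ _ fun t ht => ?_
    by_cases hw : t.1 + 4 * t.2.1 + t.2.2 < k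
    · rw [hc w t ht hw, sub_self, zero_smul]
      exact ld_lw_zero _
    · exact l3 _ _ _ (l4 _ _ (k : ℤ) (by exact_mod_cast not_lt.1 hw) (ld_lw_mon hLow0 hNfa w t))
  have h3 := l2 _ _ _ h1 h2
  have e : ∑ w, ∑ t ∈ M7, (((cS L w t.1 t.2.1 t.2.2 : ℤ) : ZMod 5) - c w t) •
      (ldMon w t : Module.End (ZMod 5) (Fn5 (5 ^ r) (5 ^ s))) =
      ∑ w, ∑ t ∈ M7, ((cS L w t.1 t.2.1 t.2.2 : ℤ) : ZMod 5) • ldMon w t -
      ∑ w, ∑ t ∈ M7, c w t • ldMon w t := by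
    rw [← Finset.sum_sub_distrib]
    exact Finset.sum_congr rfl fun w _ => ld_sum_sub M7 _ _ _
  rw [e, sub_add_sub_cancel] at h3
  exact h3

theorem ld_cast {S C : ℤ} (h : (5 : ℤ) ∣ S - C) : (S : ZMod 5) = (C : ZMod 5) := by
  have h1 := (ZMod.intCast_zmod_eq_zero_iff_dvd (S - C) 5).2 (by exact_mod_cast h)
  push_cast at h1
  exact sub_eq_zero.1 h1

/-- Powers. -/
theorem ld_pow (hLow0 : S5Low0) (O P : Module.End (ZMod 5) (Fn5 (5 ^ r) (5 ^ s))) (hO : Lw O 1)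
    (hP : Lw P 1) (h : Lw (O - P) 3) (n : ℕ) : Lw (O ^ n - P ^ n) ((n : ℤ) + 2) := by
  obtain ⟨l1, l2, l3, l4, _⟩ := hLow0 r s
  induction n with
  | zero =>
    rw [pow_zero, pow_zero, sub_self]
    exact ld_lw_zero _
  | succ n ih =>
    have e : O ^ (n + 1) - P ^ (n + 1) = O ^ n * (O - P) + (O ^ n - P ^ n) * P := by
      rw [pow_succ, pow_succ, mul_sub, sub_mul]
      abel
    rw [e]
    have a1 := l1 _ _ _ _ (ld_lw_pow hLow0 O 1 (by exact_mod_cast hO) n) h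
    have a2 := l1 _ _ _ _ ih hP
    have e1 : ((1 * n : ℕ) : ℤ) + 3 = ((n + 1 : ℕ) : ℤ) + 2 := by push_cast; ring
    have e2 : (n : ℤ) + 2 + 1 = ((n + 1 : ℕ) : ℤ) + 2 := by push_cast; ring
    rw [e1] at a1
    rw [e2] at a2
    exact l2 _ _ _ a1 a2

/-- The monomial `oW 2 * (oB - 1)^i * (oA - 1)^j`, `i + j` even, on functions of even degree. -/
theorem ld_lead (hLow0 : S5Low0) (hNfa : S5Nfa) (i j : ℕ) (hij : Even (i + j)) (d : ℤ) (hd : Even d)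
    (F : Fn5 (5 ^ r) (5 ^ s)) (hF : F ∈ Wd5 d) :
    ldMon 2 (i, 0, j) F - (dY ^ i * dX ^ j : Module.End (ZMod 5) (Fn5 (5 ^ r) (5 ^ s))) F ∈
      Wd5 (d - (((i + j : ℕ) : ℤ) + 1)) := by
  obtain ⟨l1, l2, l3, l4, l5, l6, l7, l8, _⟩ := hLow0 r s
  obtain ⟨n1, n2, n3, n4, n5, n6, n7, n8⟩ := hNfa r s
  have hA := ld_lw_pow hLow0 (oA - 1 : Module.End (ZMod 5) (Fn5 (5 ^ r) (5 ^ s))) 1
    (by exact_mod_cast n7) j
  have hB := ld_lw_pow hLow0 (oB - 1 : Module.End (ZMod 5) (Fn5 (5 ^ r) (5 ^ s))) 1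
    (by exact_mod_cast n8) i
  have hX := ld_lw_pow hLow0 (dX : Module.End (ZMod 5) (Fn5 (5 ^ r) (5 ^ s))) 1
    (by exact_mod_cast l7) j
  have pA := ld_pow hLow0 _ _ n7 l7 n5 j
  have pB := ld_pow hLow0 _ _ n8 l8 n6 i
  -- the product
  have q1 := l1 _ _ _ _ hB hA
  have q2 := l1 _ _ _ _ hB pA
  have q3 := l1 _ _ _ _ pB hX
  have e1 : ((1 * i : ℕ) : ℤ) + ((1 * j : ℕ) : ℤ) = ((i + j : ℕ) : ℤ) := by push_cast; ring
  have e2 : ((1 * i : ℕ) : ℤ) + ((j : ℤ) + 2) = ((i + j : ℕ) : ℤ) + 2 := by push_cast; ring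
  have e3 : (i : ℤ) + 2 + ((1 * j : ℕ) : ℤ) = ((i + j : ℕ) : ℤ) + 2 := by push_cast; ring
  rw [e1] at q1
  rw [e2] at q2
  rw [e3] at q3
  have q4 := l2 _ _ _ q2 q3
  have e4 : (oB - 1) ^ i * ((oA - 1) ^ j - dX ^ j) + ((oB - 1) ^ i - dY ^ i) * dX ^ j =
      ((oB - 1) ^ i * (oA - 1) ^ j - dY ^ i * dX ^ j : Module.End (ZMod 5) (Fn5 (5 ^ r) (5 ^ s))) := by
    rw [mul_sub, sub_mul]
    abel
  rw [e4] at q4
  have m1 := q1 d F hF
  have m2 := l4 _ _ (((i + j : ℕ) : ℤ) + 1) (by linarith) q4 d F hF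
  have m3 := n2 _ _ m1 (hd.sub ((Int.even_coe_nat _).2 hij))
  have e5 : d - ((i + j : ℕ) : ℤ) - 1 = d - (((i + j : ℕ) : ℤ) + 1) := by ring
  rw [e5] at m3
  have m4 := Submodule.add_mem _ m3 m2
  have e6 : ldMon 2 (i, 0, j) F - (dY ^ i * dX ^ j : Module.End (ZMod 5) (Fn5 (5 ^ r) (5 ^ s))) F =
      oW 2 (((oB - 1) ^ i * (oA - 1) ^ j : Module.End (ZMod 5) (Fn5 (5 ^ r) (5 ^ s))) F) -
        ((oB - 1) ^ i * (oA - 1) ^ j : Module.End (ZMod 5) (Fn5 (5 ^ r) (5 ^ s))) F +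
      ((oB - 1) ^ i * (oA - 1) ^ j - dY ^ i * dX ^ j : Module.End (ZMod 5) (Fn5 (5 ^ r) (5 ^ s))) F := by
    rw [LinearMap.sub_apply, sub_add_sub_cancel]
    unfold ldMon
    simp only [pow_zero, mul_one]
    rfl
  rw [e6]
  exact m4

/-- Sums over `w` and `M7` with one nonzero block. -/
theorem ld_sum (S : Finset (ℕ × ℕ × ℕ)) (hS : S ⊆ M7) (c : Fin 4 → ℕ × ℕ × ℕ → ZMod 5)
    (hc : ∀ w t, w ≠ 2 ∨ t ∉ S → c w t = 0) :
    ∑ w, ∑ t ∈ M7, c w t • (ldMon w t : Module.End (ZMod 5) (Fn5 (5 ^ r) (5 ^ s))) =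
      ∑ t ∈ S, c 2 t • ldMon 2 t := by
  rw [Finset.sum_eq_single (2 : Fin 4)]
  · refine (Finset.sum_subset hS fun t _ hn => ?_).symm
    rw [hc 2 t (Or.inr hn), zero_smul]
  · intro w _ hw
    refine Finset.sum_eq_zero fun t _ => ?_
    rw [hc w t (Or.inl hw), zero_smul]
  · intro h
    exact absurd (Finset.mem_univ _) h

/-- The leading operator of the second combination. -/
theorem ld_Lo (hLow0 : S5Low0) : (Lo : Module.End (ZMod 5) (Fn5 (5 ^ r) (5 ^ s))) =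
    (3 : ZMod 5) • (dY ^ 1 * dX ^ 5) + ((3 : ZMod 5) • (dY ^ 5 * dX ^ 1) +
      (1 : ZMod 5) • (dY ^ 3 * dX ^ 3)) := by
  obtain ⟨l1, l2, l3, l4, l5, l6, l7, l8, hc, _⟩ := hLow0 r s
  have hc2 : ∀ Z : Module.End (ZMod 5) (Fn5 (5 ^ r) (5 ^ s)), dX * (dY * Z) = dY * (dX * Z) := by
    intro Z
    rw [← mul_assoc, hc, mul_assoc]
  have e : (dX * dY * (dX ^ 2 + dY ^ 2) ^ 2 : Module.End (ZMod 5) (Fn5 (5 ^ r) (5 ^ s))) =
      dY ^ 1 * dX ^ 5 + (dY ^ 5 * dX ^ 1 + (dY ^ 3 * dX ^ 3 + dY ^ 3 * dX ^ 3)) := by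
    simp only [pow_succ, pow_zero, one_mul, mul_add, add_mul, mul_assoc, hc, hc2]
    abel
  have h6 : (1 : ZMod 5) = 3 + 3 := by decide
  unfold Lo
  rw [e, ld_smul_add, ld_smul_add, ld_smul_add, h6, ld_add_smul]

/-- Lists for `T_2² + 1` and the other combination. -/
theorem ld_gdB (hCert : S5Cert) (i f : Fin 2) : (∀ t ∈ BU i f, Gd t) ∧ (∀ t ∈ BV i f, Gd t) := by
  obtain ⟨c1, -⟩ := hCert
  have a2 : ∀ i f, ∀ t ∈ T2L i f, Gd t := fun i f => (c1 i f).1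
  have a3 : ∀ i f, ∀ t ∈ T3L i f, Gd t := fun i f => (c1 i f).2.1
  have ar : ∀ i f, ∀ t ∈ relL i f, Gd t := fun i f => (c1 i f).2.2.1
  have au : ∀ i f, ∀ t ∈ MU i f, Gd t := fun i f => (c1 i f).2.2.2.1
  have av : ∀ i f, ∀ t ∈ MV i f, Gd t := fun i f => (c1 i f).2.2.2.2
  constructor
  · exact ld_gd_app (ld_gd_app (ld_gd_app (ld_gd_mm a2 a2 i f) (ld_gd_id 1 i f))
      (ld_gd_scl _ (ld_gd_mulL (au i 0) (ar 0 f)))) (ld_gd_scl _ (ld_gd_mulL (au i 1) (ar 1 f)))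
  · exact ld_gd_app (ld_gd_app (ld_gd_app (ld_gd_app (ld_gd_mm a3 a3 i f)
      (ld_gd_scl _ (ld_gd_mm a2 a3 i f))) (ld_gd_id (-2) i f))
      (ld_gd_scl _ (ld_gd_mulL (av i 0) (ar 0 f)))) (ld_gd_scl _ (ld_gd_mulL (av i 1) (ar 1 f)))

end ops

/-- Module Ld. -/
theorem hLd (hm : S5Trm) (hl : S5Low0) (hn : S5Nfa) (he : S5Exp) (hc : S5Cert) : S5Ld := by
  intro r s d F hd hR hF0 hF1
  have hB := ld_gdB hc
  obtain ⟨c1, c2, c3, c4, c5, -, -⟩ := hc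
  have ar : ∀ i f, ∀ t ∈ relL i f, Gd t := fun i f => (c1 i f).2.2.1
  have au : ∀ i f, ∀ t ∈ MU i f, Gd t := fun i f => (c1 i f).2.2.2.1
  have av : ∀ i f, ∀ t ∈ MV i f, Gd t := fun i f => (c1 i f).2.2.2.2
  obtain ⟨l1, l2, l3, l4, l5, l6, l7, l8, _⟩ := hl r s
  -- modulo the relations
  have eU : ∀ i : Fin 2, ∑ f : Fin 2, opL (UL i f) (F f) = ∑ f : Fin 2, opL (BU i f) (F f) := by
    intro i
    have h0 := ld_mulrel hm F hR 0 (MU i 0) (au i 0) (ar 0)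
    have h1 := ld_mulrel hm F hR 1 (MU i 1) (au i 1) (ar 1)
    have e : ∀ f : Fin 2, opL (BU i f) (F f) = opL (UL i f) (F f) +
        opL (sclL (-1) (mulL (MU i 0) (relL 0 f))) (F f) +
        opL (sclL (-1) (mulL (MU i 1) (relL 1 f))) (F f) := by
      intro f
      unfold BU
      rw [ld_app, ld_app]
      rfl
    rw [Finset.sum_congr rfl fun f _ => e f, Finset.sum_add_distrib, Finset.sum_add_distrib, h0, h1,
      add_zero, add_zero]
  have eV : ∀ i : Fin 2, ∑ f : Fin 2, opL (VL i f) (F f) = ∑ f : Fin 2, opL (BV i f) (F f) := by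
    intro i
    have h0 := ld_mulrel hm F hR 0 (MV i 0) (av i 0) (ar 0)
    have h1 := ld_mulrel hm F hR 1 (MV i 1) (av i 1) (ar 1)
    have e : ∀ f : Fin 2, opL (BV i f) (F f) = opL (VL i f) (F f) +
        opL (sclL (-1) (mulL (MV i 0) (relL 0 f))) (F f) +
        opL (sclL (-1) (mulL (MV i 1) (relL 1 f))) (F f) := by
      intro f
      unfold BV
      rw [ld_app, ld_app]
      rfl
    rw [Finset.sum_congr rfl fun f _ => e f, Finset.sum_add_distrib, Finset.sum_add_distrib, h0, h1,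
      add_zero, add_zero]
  -- the four expansions
  have kU0 := fun i : Fin 2 => ld_key hl hn he (r := r) (s := s) (BU i 0) (hB i 0).1 3 (by norm_num)
    (fun w t => ((if i = 0 ∧ w = 2 ∧ t = (1, 0, 1) then 2 else 0 : ℤ) : ZMod 5))
    (fun w t ht hw => ld_cast (c2 i w t ht (by omega)))
  have kU1 : ∀ i : Fin 2, Lw (opL (BU i 1) : Module.End (ZMod 5) (Fn5 (5 ^ r) (5 ^ s))) 2 := by
    intro i
    have h := ld_key hl hn he (r := r) (s := s) (BU i 1) (hB i 1).1 2 (by norm_num) (fun _ _ => 0)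
      (fun w t ht hw => by
        have := ld_cast (S := cS (BU i 1) w t.1 t.2.1 t.2.2) (C := 0)
          (by rw [sub_zero]; exact c3 i w t ht (by omega))
        rw [this, Int.cast_zero])
    simp only [zero_smul, Finset.sum_const_zero, sub_zero] at h
    exact_mod_cast h
  have kV0 := fun i : Fin 2 => ld_key hl hn he (r := r) (s := s) (BV i 0) (hB i 0).2 7 (by norm_num)
    (fun w t => ((if i = 0 ∧ w = 2 then (if t = (1, 0, 5) ∨ t = (5, 0, 1) then 3 else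
      if t = (3, 0, 3) then 1 else 0) else 0 : ℤ) : ZMod 5))
    (fun w t ht hw => ld_cast (c4 i w t ht))
  have kV1 : ∀ i : Fin 2, Lw (opL (BV i 1) : Module.End (ZMod 5) (Fn5 (5 ^ r) (5 ^ s))) 6 := by
    intro i
    have h := ld_key hl hn he (r := r) (s := s) (BV i 1) (hB i 1).2 6 (by norm_num) (fun _ _ => 0)
      (fun w t ht hw => by
        have := ld_cast (S := cS (BV i 1) w t.1 t.2.1 t.2.2) (C := 0)
          (by rw [sub_zero]; exact c5 i w t ht (by omega))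
        rw [this, Int.cast_zero])
    simp only [zero_smul, Finset.sum_const_zero, sub_zero] at h
    exact_mod_cast h
  have mU1 : ∀ i : Fin 2, opL (BU i 1) (F 1) ∈ (Wd5 (d - 3) : Submodule (ZMod 5) (Fn5 (5 ^ r) (5 ^ s))) := by
    intro i
    have h := kU1 i _ _ hF1
    have e : d - 1 - 2 = d - 3 := by ring
    rwa [e] at h
  have mV1 : ∀ i : Fin 2, opL (BV i 1) (F 1) ∈ (Wd5 (d - 7) : Submodule (ZMod 5) (Fn5 (5 ^ r) (5 ^ s))) := by
    intro i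
    have h := kV1 i _ _ hF1
    have e : d - 1 - 6 = d - 7 := by ring
    rwa [e] at h
  refine ⟨?_, ?_, ?_, ?_⟩
  · -- row 0 of the first
    have h := kU0 0
    rw [ld_sum {(1, 0, 1)} (by decide) _ (fun w t ht => by
      rw [if_neg, Int.cast_zero]
      rintro ⟨-, h1, h2⟩
      rcases ht with h3 | h3
      · exact h3 h1
      · exact h3 (by rw [h2]; exact Finset.mem_singleton_self _)), Finset.sum_singleton,
      if_pos ⟨rfl, rfl, rfl⟩] at h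
    have h1 := h d (F 0) hF0
    have e0 : ((3 : ℕ) : ℤ) = 3 := rfl
    rw [e0] at h1
    have h2 := ld_lead hl hn 1 1 (by decide) d hd (F 0) hF0
    have h3 := Submodule.smul_mem _ (2 : ZMod 5) h2
    have e3 : d - (((1 + 1 : ℕ) : ℤ) + 1) = d - 3 := by norm_num
    rw [e3] at h3
    have e : ∑ f : Fin 2, opL (UL 0 f) (F f) - Qo (F 0) =
        (opL (BU 0 0) - ((2 : ℤ) : ZMod 5) • ldMon 2 (1, 0, 1) :
          Module.End (ZMod 5) (Fn5 (5 ^ r) (5 ^ s))) (F 0) +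
        (2 : ZMod 5) • (ldMon 2 (1, 0, 1) (F 0) -
          (dY ^ 1 * dX ^ 1 : Module.End (ZMod 5) (Fn5 (5 ^ r) (5 ^ s))) (F 0)) +
        opL (BU 0 1) (F 1) := by
      obtain ⟨-, -, -, -, -, -, -, -, hxy, _⟩ := hl r s
      have hQ : (Qo : Module.End (ZMod 5) (Fn5 (5 ^ r) (5 ^ s))) (F 0) = (2 : ZMod 5) •
          (dY ^ 1 * dX ^ 1 : Module.End (ZMod 5) (Fn5 (5 ^ r) (5 ^ s))) (F 0) := by
        unfold Qo
        rw [hxy, pow_one, pow_one]
        rfl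
      rw [eU, Fin.sum_univ_two, hQ, LinearMap.sub_apply, LinearMap.smul_apply, smul_sub]
      push_cast
      abel
    rw [e]
    exact Submodule.add_mem _ (Submodule.add_mem _ h1 h3) (mU1 0)
  · -- row 1 of the first
    have h := kU0 1
    rw [ld_sum ∅ (by simp) _ (fun w t ht => by
      rw [if_neg, Int.cast_zero]
      rintro ⟨h1, -⟩
      exact absurd h1 (by decide)), Finset.sum_empty, sub_zero] at h
    have h1 := h d (F 0) hF0
    have e0 : ((3 : ℕ) : ℤ) = 3 := rfl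
    rw [e0] at h1
    rw [eU, Fin.sum_univ_two]
    have h9 := mU1 1
    refine Submodule.add_mem _ ?_ ?_
    · convert h1 using 2
    · convert h9 using 2
  · -- row 0 of the second
    have h := kV0 0
    rw [ld_sum {(1, 0, 5), (5, 0, 1), (3, 0, 3)} (by decide) _ (fun w t ht => by
      rcases ht with h3 | h3
      · rw [if_neg (fun h => h3 h.2), Int.cast_zero]
      · rw [Finset.mem_insert, Finset.mem_insert, Finset.mem_singleton, not_or, not_or] at h3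
        rw [if_neg (not_or.2 ⟨h3.1, h3.2.1⟩), if_neg h3.2.2, ite_self, Int.cast_zero]),
      Finset.sum_insert (by decide), Finset.sum_insert (by decide), Finset.sum_singleton,
      if_pos ⟨rfl, rfl⟩, if_pos (Or.inl rfl), if_pos ⟨rfl, rfl⟩, if_pos (Or.inr rfl),
      if_pos ⟨rfl, rfl⟩, if_neg (by decide), if_pos rfl] at h
    have h1 := h d (F 0) hF0
    have e0 : ((7 : ℕ) : ℤ) = 7 := rfl
    rw [e0] at h1
    have a1 := Submodule.smul_mem _ (3 : ZMod 5) (ld_lead hl hn 1 5 (by decide) d hd (F 0) hF0)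
    have a2 := Submodule.smul_mem _ (3 : ZMod 5) (ld_lead hl hn 5 1 (by decide) d hd (F 0) hF0)
    have a3 := Submodule.smul_mem _ (1 : ZMod 5) (ld_lead hl hn 3 3 (by decide) d hd (F 0) hF0)
    have e1 : d - (((1 + 5 : ℕ) : ℤ) + 1) = d - 7 := by norm_num
    have e2 : d - (((5 + 1 : ℕ) : ℤ) + 1) = d - 7 := by norm_num
    have e3 : d - (((3 + 3 : ℕ) : ℤ) + 1) = d - 7 := by norm_num
    rw [e1] at a1
    rw [e2] at a2
    rw [e3] at a3
    have e : ∑ f : Fin 2, opL (VL 0 f) (F f) - Lo (F 0) =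
        (opL (BV 0 0) - (((3 : ℤ) : ZMod 5) • ldMon 2 (1, 0, 5) + (((3 : ℤ) : ZMod 5) • ldMon 2 (5, 0, 1) +
          ((1 : ℤ) : ZMod 5) • ldMon 2 (3, 0, 3))) : Module.End (ZMod 5) (Fn5 (5 ^ r) (5 ^ s))) (F 0) +
        ((3 : ZMod 5) • (ldMon 2 (1, 0, 5) (F 0) -
          (dY ^ 1 * dX ^ 5 : Module.End (ZMod 5) (Fn5 (5 ^ r) (5 ^ s))) (F 0)) +
        (3 : ZMod 5) • (ldMon 2 (5, 0, 1) (F 0) -
          (dY ^ 5 * dX ^ 1 : Module.End (ZMod 5) (Fn5 (5 ^ r) (5 ^ s))) (F 0)) +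
        (1 : ZMod 5) • (ldMon 2 (3, 0, 3) (F 0) -
          (dY ^ 3 * dX ^ 3 : Module.End (ZMod 5) (Fn5 (5 ^ r) (5 ^ s))) (F 0))) +
        opL (BV 0 1) (F 1) := by
      rw [eV, Fin.sum_univ_two, ld_Lo hl]
      simp only [LinearMap.sub_apply, LinearMap.add_apply, LinearMap.smul_apply, smul_sub]
      push_cast
      abel
    rw [e]
    exact Submodule.add_mem _ (Submodule.add_mem _ h1
      (Submodule.add_mem _ (Submodule.add_mem _ a1 a2) a3)) (mV1 0)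
  · -- row 1 of the second
    have h := kV0 1
    rw [ld_sum ∅ (by simp) _ (fun w t ht => by
      rw [if_neg, Int.cast_zero]
      rintro ⟨h1, -⟩
      exact absurd h1 (by decide)), Finset.sum_empty, sub_zero] at h
    have h1 := h d (F 0) hF0
    have e0 : ((7 : ℕ) : ℤ) = 7 := rfl
    rw [e0] at h1
    rw [eV, Fin.sum_univ_two]
    have h9 := mV1 1
    refine Submodule.add_mem _ ?_ ?_
    · convert h1 using 2
    · convert h9 using 2

end Pool.Agent.Helper99.W5
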